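import Pool.Agent.Helper91.PL.SBasic

/-!
# MP_bae8ce_ag : Fourier transform of the pencil relation (module S8)
-/

set_option autoImplicit false
set_option linter.unusedSectionVars false

open Finset

namespace PL

noncomputable section

section S8

variable {k : Type} [Field k] [Fintype k] [DecidableEq k]

/-- The symplectic form on `k²`. -/
def s8_om (x y : k × k) : k := x.1 * y.2 - x.2 * y.1

theorem s8_om_smul_right (c : k) (x y : k × k) : s8_om x (c • y) = c * s8_om x y := by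
  simp only [s8_om, Prod.smul_fst, Prod.smul_snd, smul_eq_mul]
  ring

theorem s8_om_smul_left (c : k) (x y : k × k) : s8_om (c • x) y = c * s8_om x y := by
  simp only [s8_om, Prod.smul_fst, Prod.smul_snd, smul_eq_mul]
  ring

theorem s8_om_sum_right {ι : Type} (s : Finset ι) (x : k × k) (y : ι → k × k) :
    s8_om x (∑ j ∈ s, y j) = ∑ j ∈ s, s8_om x (y j) := by
  simp only [s8_om, Prod.fst_sum, Prod.snd_sum, Finset.mul_sum, Finset.sum_sub_distrib]

theorem s8_om_sum_left {ι : Type} (s : Finset ι) (x : ι → k × k) (y : k × k) :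
    s8_om (∑ j ∈ s, x j) y = ∑ j ∈ s, s8_om (x j) y := by
  simp only [s8_om, Prod.fst_sum, Prod.snd_sum, Finset.sum_mul, Finset.sum_sub_distrib]

theorem s8_om_add_right (x y z : k × k) : s8_om x (y + z) = s8_om x y + s8_om x z := by
  simp only [s8_om, Prod.fst_add, Prod.snd_add]
  ring

theorem s8_par_iff (x y : k × k) : par x y ↔ s8_om x y = 0 := by
  unfold par s8_om
  exact sub_eq_zero.symm

/-- A nonzero vector pairs to any given value. -/
theorem s8_om_surj {x : k × k} (hx : x ≠ 0) (b : k) : ∃ y, s8_om x y = b := by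
  by_cases h1 : x.1 = 0
  · have h2 : x.2 ≠ 0 := fun h2 => hx (Prod.ext h1 h2)
    refine ⟨(-(b / x.2), 0), ?_⟩
    simp only [s8_om]
    field_simp
    ring
  · refine ⟨(0, b / x.1), ?_⟩
    simp only [s8_om]
    field_simp
    ring

/-- The additive character. -/
def s8_ψ (k : Type) [Field k] [Fintype k] : AddChar k ℂ :=
  AddChar.FiniteField.primitiveChar_to_Complex k

theorem s8_ψ_prim : (s8_ψ k).IsPrimitive :=
  AddChar.FiniteField.primitiveChar_to_Complex_isPrimitive k

theorem s8_sum (b : k) : ∑ c : k, s8_ψ k (c * b) = if b = 0 then (Fintype.card k : ℂ) else 0 := by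
  have h := AddChar.sum_mulShift b (s8_ψ_prim (k := k))
  rw [h]
  push_cast
  rfl

theorem s8_sum_erase (b : k) : ∑ c ∈ univ.erase (0 : k), s8_ψ k (c * b) =
    (if b = 0 then (Fintype.card k : ℂ) else 0) - 1 := by
  rw [← s8_sum b, ← Finset.add_sum_erase univ (fun c => s8_ψ k (c * b)) (Finset.mem_univ 0)]
  simp

open Classical in
/-- The one variable transform. -/
theorem s8_one (f : k × k → ℝ) (hs : ∀ c : k, c ≠ 0 → ∀ y, f (c • y) = f y) (h0 : f 0 = 0)
    (hm : ∑ y, f y = 0) (x : k × k) :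
    ∑ y, (f y : ℂ) * s8_ψ k (s8_om x y) = (Fintype.card k : ℂ) * f x := by
  have hQ : (Fintype.card k : ℂ) - 1 ≠ 0 := by
    have h1 : 1 < Fintype.card k := Fintype.one_lt_card
    have h2 : (Fintype.card k : ℂ) ≠ 1 := by
      exact_mod_cast h1.ne'
    exact sub_ne_zero.2 h2
  have hcard : ((univ.erase (0 : k)).card : ℂ) = (Fintype.card k : ℂ) - 1 := by
    rw [Finset.card_erase_of_mem (Finset.mem_univ _), Finset.card_univ,
      Nat.cast_sub Fintype.card_pos]
    simp
  have h1 : ∀ c ∈ univ.erase (0 : k), ∑ y, (f y : ℂ) * s8_ψ k (s8_om x y) =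
      ∑ y, (f y : ℂ) * s8_ψ k (c * s8_om x y) := by
    intro c hc
    have hc0 : c ≠ 0 := (Finset.mem_erase.1 hc).1
    have h2 := Equiv.sum_comp (MulAction.toPerm (α := kˣ) (β := k × k) (Units.mk0 c hc0))
      (fun y => (f y : ℂ) * s8_ψ k (s8_om x y))
    rw [← h2]
    refine Finset.sum_congr rfl fun y _ => ?_
    have h3 : (MulAction.toPerm (α := kˣ) (β := k × k) (Units.mk0 c hc0)) y = c • y := rfl
    rw [h3, hs c hc0, s8_om_smul_right]
  have h2 : ((Fintype.card k : ℂ) - 1) * ∑ y, (f y : ℂ) * s8_ψ k (s8_om x y) =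
      ∑ c ∈ univ.erase (0 : k), ∑ y, (f y : ℂ) * s8_ψ k (c * s8_om x y) := by
    rw [← Finset.sum_congr rfl h1, Finset.sum_const, nsmul_eq_mul, hcard]
  have h3 : ∑ c ∈ univ.erase (0 : k), ∑ y, (f y : ℂ) * s8_ψ k (c * s8_om x y) =
      ∑ y, (f y : ℂ) * ((if s8_om x y = 0 then (Fintype.card k : ℂ) else 0) - 1) := by
    rw [Finset.sum_comm]
    refine Finset.sum_congr rfl fun y _ => ?_
    rw [← Finset.mul_sum, s8_sum_erase]
  have h4 : ∑ y, (f y : ℂ) * ((if s8_om x y = 0 then (Fintype.card k : ℂ) else 0) - 1) =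
      (Fintype.card k : ℂ) * ∑ y, (if s8_om x y = 0 then (f y : ℂ) else 0) := by
    have h5 : ∀ y, (f y : ℂ) * ((if s8_om x y = 0 then (Fintype.card k : ℂ) else 0) - 1) =
        (Fintype.card k : ℂ) * (if s8_om x y = 0 then (f y : ℂ) else 0) - (f y : ℂ) := by
      intro y
      split_ifs <;> ring
    rw [Finset.sum_congr rfl fun y _ => h5 y, Finset.sum_sub_distrib, ← Finset.mul_sum]
    have h6 : ∑ y, (f y : ℂ) = 0 := by
      rw [← Complex.ofReal_sum, hm]
      simp
    rw [h6, sub_zero]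
  have h7 : ∑ y, (if s8_om x y = 0 then (f y : ℂ) else 0) = ((Fintype.card k : ℂ) - 1) * f x := by
    by_cases hx : x = 0
    · subst hx
      have h8 : ∀ y, s8_om (0 : k × k) y = 0 := fun y => by simp [s8_om]
      simp only [h8, if_true]
      rw [← Complex.ofReal_sum, hm, h0]
      simp
    · have h8 : ∑ y, (if s8_om x y = 0 then (f y : ℂ) else 0) = ∑ c : k, (f (c • x) : ℂ) := by
        rw [← Finset.sum_filter]
        symm
        refine Finset.sum_bij (fun c _ => c • x) ?_ ?_ ?_ ?_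
        · intro c _
          rw [Finset.mem_filter]
          refine ⟨Finset.mem_univ _, ?_⟩
          rw [s8_om_smul_right]
          have : s8_om x x = 0 := by
            unfold s8_om
            ring
          rw [this, mul_zero]
        · intro c _ d _ hcd
          exact smul_left_injective k hx hcd
        · intro y hy
          rw [Finset.mem_filter] at hy
          obtain ⟨c, hc⟩ := exists_smul_of_par hx ((s8_par_iff x y).2 hy.2)
          exact ⟨c, Finset.mem_univ _, hc.symm⟩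
        · intro c _
          rfl
      rw [h8, ← Finset.add_sum_erase univ _ (Finset.mem_univ (0 : k)), zero_smul, h0]
      rw [Finset.sum_congr rfl fun c hc => by rw [hs c (Finset.mem_erase.1 hc).1 x]]
      rw [Finset.sum_const, nsmul_eq_mul, hcard]
      simp
  rw [h3, h4, h7] at h2
  apply mul_left_cancel₀ hQ
  rw [h2]
  ring

/-- All variables at the same time. -/
theorem s8_all : ∀ (N : ℕ) (Φ : Tup N k → ℝ)
    (_ : ∀ ζ i, ∑ y, (Φ (Function.update ζ i y) : ℂ) * s8_ψ k (s8_om (ζ i) y) =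
      (Fintype.card k : ℂ) * Φ ζ) (ζ : Tup N k),
    ∑ z : Tup N k, (Φ z : ℂ) * s8_ψ k (∑ i, s8_om (ζ i) (z i)) =
      (Fintype.card k : ℂ) ^ N * Φ ζ := by
  intro N
  induction N with
  | zero =>
    intro Φ _ ζ
    have h1 : ∀ z : Tup 0 k, z = ζ := fun z => Subsingleton.elim _ _
    rw [Fintype.sum_subsingleton _ ζ]
    simp
  | succ N ih =>
    intro Φ h ζ
    rw [← Equiv.sum_comp (Fin.consEquiv fun _ => k × k), Fintype.sum_prod_type]
    have h1 : ∀ y : k × k, ∑ z : Fin N → k × k,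
        (Φ (Fin.consEquiv (fun _ => k × k) (y, z)) : ℂ) *
          s8_ψ k (∑ i, s8_om (ζ i) (Fin.consEquiv (fun _ => k × k) (y, z) i)) =
        s8_ψ k (s8_om (ζ 0) y) * ((Fintype.card k : ℂ) ^ N *
          Φ (Fin.cons y (fun i => ζ i.succ) : Tup (N + 1) k)) := by
      intro y
      have h2 := ih (fun z => Φ (Fin.cons y z : Tup (N + 1) k)) (fun z i => by
        have h3 := h (Fin.cons y z : Tup (N + 1) k) i.succ
        simp only [Fin.cons_succ] at h3
        rw [← h3]
        refine Finset.sum_congr rfl fun v _ => ?_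
        rw [Fin.cons_update]) (fun i => ζ i.succ)
      rw [← h2, Finset.mul_sum]
      refine Finset.sum_congr rfl fun z _ => ?_
      have h4 : (Fin.consEquiv (fun _ => k × k) (y, z) : Fin (N + 1) → k × k) = Fin.cons y z := rfl
      rw [h4, Fin.sum_univ_succ]
      simp only [Fin.cons_zero, Fin.cons_succ]
      rw [AddChar.map_add_eq_mul]
      ring
    rw [Finset.sum_congr rfl fun y _ => h1 y]
    have h5 := h ζ 0
    have h6 : ∀ y, Function.update ζ 0 y = (Fin.cons y (fun i => ζ i.succ) : Tup (N + 1) k) := by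
      intro y
      funext i
      refine Fin.cases ?_ (fun j => ?_) i
      · simp
      · simp [Fin.succ_ne_zero]
    simp only [h6] at h5
    rw [pow_succ, mul_assoc, ← h5, Finset.mul_sum]
    refine Finset.sum_congr rfl fun y _ => ?_
    ring

theorem s8_adm {r : ℕ} {Φ : Tup (r + 2) k → ℝ} (hΦ : Adm0 Φ) (ζ : Tup (r + 2) k)
    (i : Fin (r + 2)) :
    ∑ y, (Φ (Function.update ζ i y) : ℂ) * s8_ψ k (s8_om (ζ i) y) =
      (Fintype.card k : ℂ) * Φ ζ := by
  have h := s8_one (fun y => Φ (Function.update ζ i y)) (fun c hc y => ?_)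
    (hΦ.zero _ i (by simp)) (hΦ.marg ζ i) (ζ i)
  · simpa using h
  · show Φ (Function.update ζ i (c • y)) = Φ (Function.update ζ i y)
    rw [← hΦ.scale (Function.update (fun _ => (1 : k)) i c) (fun j => ?_) (Function.update ζ i y)]
    · congr 1
      funext j
      by_cases hj : j = i
      · subst hj
        simp
      · simp [hj]
    · by_cases hj : j = i
      · subst hj
        simpa using hc
      · simp [hj]

/-- Moving a matrix to the other side of the pairing. -/
theorem s8_pair {N : ℕ} (B : Matrix (Fin N) (Fin N) k) (ζ z : Tup N k) :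
    ∑ i, s8_om (ζ i) (act B z i) = ∑ i, s8_om (act B.transpose ζ i) (z i) := by
  simp only [act, s8_om_sum_right, s8_om_sum_left, s8_om_smul_right, s8_om_smul_left,
    Matrix.transpose_apply]
  rw [Finset.sum_comm]

variable {p : ℕ}

theorem s8_unit [Fact p.Prime] {r : ℕ} [Algebra (ZMod p) k] {Φ : Tup (r + 2) k → ℝ}
    (hΦ : Adm0 Φ) (G : Matrix (Fin (r + 2)) (Fin (r + 2)) (ZMod p)) (hG : IsUnit G.det)
    (ζ : Tup (r + 2) k) :
    ∑ z : Tup (r + 2) k, (Φ (act (bc G) z) : ℂ) * s8_ψ k (∑ i, s8_om (ζ i) (z i)) =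
      (Fintype.card k : ℂ) ^ (r + 2) * Φ (act (bc G⁻¹.transpose) ζ) := by
  have h1 : (bc G : Matrix (Fin (r + 2)) (Fin (r + 2)) k) * bc G⁻¹ = 1 := by
    unfold bc
    rw [← Matrix.map_mul, Matrix.mul_nonsing_inv _ hG]
    exact Matrix.map_one _ (map_zero _) (map_one _)
  have h2 := mul_one_comm' h1
  have h3 := Equiv.sum_comp (actEquiv _ _ h2 h1)
    (fun z => (Φ (act (bc G) z) : ℂ) * s8_ψ k (∑ i, s8_om (ζ i) (z i)))
  rw [← h3]
  have h4 : ∀ z, (actEquiv (bc G⁻¹ : Matrix (Fin (r + 2)) (Fin (r + 2)) k) (bc G) h2 h1) z =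
    act (bc G⁻¹) z := fun _ => rfl
  have h5 : (bc G⁻¹.transpose : Matrix (Fin (r + 2)) (Fin (r + 2)) k) = (bc G⁻¹).transpose := by
    unfold bc
    rw [Matrix.transpose_map]
  rw [h5, ← s8_all (r + 2) Φ (s8_adm hΦ) (act (bc G⁻¹).transpose ζ)]
  refine Finset.sum_congr rfl fun z _ => ?_
  rw [h4, act_inv h1, s8_pair]

theorem s8_singular [Fact p.Prime] {r : ℕ} [Algebra (ZMod p) k] (Φ : Tup (r + 2) k → ℝ)
    (G : Matrix (Fin (r + 2)) (Fin (r + 2)) (ZMod p)) (hG : ¬ IsUnit G.det)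
    (ζ : Tup (r + 2) k) (hζ : Full p ζ) :
    ∑ z : Tup (r + 2) k, (Φ (act (bc G) z) : ℂ) * s8_ψ k (∑ i, s8_om (ζ i) (z i)) = 0 := by
  have h0 : G.det = 0 := by
    by_contra h
    exact hG (isUnit_iff_ne_zero.2 h)
  obtain ⟨c, hc, hGc⟩ := Matrix.exists_mulVec_eq_zero_iff.2 h0
  set e : k × k := ∑ j, algebraMap (ZMod p) k (c j) • ζ j with he
  have he0 : e ≠ 0 := hζ c hc
  obtain ⟨b, hb⟩ : ∃ b : k, s8_ψ k b ≠ 1 := by
    have h1 := s8_ψ_prim (k := k) (one_ne_zero)
    rw [AddChar.mulShift_one] at h1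
    exact AddChar.ne_one_iff.1 h1
  obtain ⟨y, hy⟩ := s8_om_surj he0 b
  set t : Tup (r + 2) k := fun j => algebraMap (ZMod p) k (c j) • y with ht
  have h1 : act (bc G) t = 0 := by
    funext i
    simp only [act, ht, smul_smul, ← Finset.sum_smul, bc, Matrix.map_apply, ← map_mul, ← map_sum]
    have h2 : ∑ j, G i j * c j = 0 := congrFun hGc i
    rw [h2]
    simp
  have h2 : ∀ z, act (bc G) (z + t) = act (bc G) z := by
    intro z
    have h3 : act (bc G) (z + t) = act (bc G) z + act (bc G) t := by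
      funext i
      simp only [act, Pi.add_apply, smul_add, Finset.sum_add_distrib]
    rw [h3, h1, add_zero]
  have h3 : ∀ z : Tup (r + 2) k, ∑ i, s8_om (ζ i) ((z + t) i) =
      (∑ i, s8_om (ζ i) (z i)) + b := by
    intro z
    simp only [Pi.add_apply, s8_om_add_right, Finset.sum_add_distrib]
    congr 1
    rw [← hy, he, s8_om_sum_left]
    refine Finset.sum_congr rfl fun i _ => ?_
    rw [ht, s8_om_smul_right, s8_om_smul_left]
  have h4 := Equiv.sum_comp (Equiv.addRight t)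
    (fun z : Tup (r + 2) k => (Φ (act (bc G) z) : ℂ) * s8_ψ k (∑ i, s8_om (ζ i) (z i)))
  simp only [Equiv.coe_addRight, h2, h3, AddChar.map_add_eq_mul, ← mul_assoc] at h4
  rw [← Finset.sum_mul] at h4
  by_contra h5
  exact hb ((mul_eq_left₀ h5).1 h4)

open Classical in
theorem fourier_rel (p : ℕ) [Fact p.Prime] (r : ℕ) (k : Type) [Field k] [Fintype k]
    [DecidableEq k] [Algebra (ZMod p) k] (Φ : Tup (r + 2) k → ℝ) (hΦ : Adm0 Φ)
    (hP : Pencil p Φ) (ζ : Tup (r + 2) k) (hζ : Full p ζ) :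
    ∑ ε : Fin (r + 2) → Bool, ∑ a : Fin (r + 2) → Fin r → ZMod p,
      (if IsUnit (GM ε a).det then
        sg ε * Φ (act (bc ((GM ε a)⁻¹.transpose)) ζ) else 0) = 0 := by
  have hQ : (Fintype.card k : ℂ) ^ (r + 2) ≠ 0 :=
    pow_ne_zero _ (Nat.cast_ne_zero.2 Fintype.card_ne_zero)
  have h1 : ∀ (ε : Fin (r + 2) → Bool) (a : Fin (r + 2) → Fin r → ZMod p),
      (Fintype.card k : ℂ) ^ (r + 2) * ((if IsUnit (GM ε a).det then
        sg ε * Φ (act (bc ((GM ε a)⁻¹.transpose)) ζ) else 0 : ℝ) : ℂ) =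
      (sg ε : ℂ) * ∑ z : Tup (r + 2) k, (Φ (act (bc (GM ε a)) z) : ℂ) *
        s8_ψ k (∑ i, s8_om (ζ i) (z i)) := by
    intro ε a
    by_cases h : IsUnit (GM ε a).det
    · rw [if_pos h, s8_unit hΦ _ h]
      push_cast
      ring
    · rw [if_neg h, s8_singular Φ _ h ζ hζ]
      simp
  have h2 : ∑ ε : Fin (r + 2) → Bool, ∑ a : Fin (r + 2) → Fin r → ZMod p,
      (sg ε : ℂ) * ∑ z : Tup (r + 2) k, (Φ (act (bc (GM ε a)) z) : ℂ) *
        s8_ψ k (∑ i, s8_om (ζ i) (z i)) = 0 := by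
    have h3 : ∀ (ε : Fin (r + 2) → Bool) (a : Fin (r + 2) → Fin r → ZMod p),
        (sg ε : ℂ) * ∑ z : Tup (r + 2) k, (Φ (act (bc (GM ε a)) z) : ℂ) *
          s8_ψ k (∑ i, s8_om (ζ i) (z i)) = ∑ z : Tup (r + 2) k,
          ((sg ε * Φ (act (bc (GM ε a)) z) : ℝ) : ℂ) * s8_ψ k (∑ i, s8_om (ζ i) (z i)) := by
      intro ε a
      rw [Finset.mul_sum]
      refine Finset.sum_congr rfl fun z _ => ?_
      push_cast
      ring
    simp only [h3]
    rw [Finset.sum_congr rfl fun ε _ => Finset.sum_comm, Finset.sum_comm]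
    refine Finset.sum_eq_zero fun z _ => ?_
    simp only [← Finset.sum_mul, ← Complex.ofReal_sum]
    rw [hP z]
    simp
  have h4 : (Fintype.card k : ℂ) ^ (r + 2) * ((∑ ε : Fin (r + 2) → Bool,
      ∑ a : Fin (r + 2) → Fin r → ZMod p, (if IsUnit (GM ε a).det then
        sg ε * Φ (act (bc ((GM ε a)⁻¹.transpose)) ζ) else 0) : ℝ) : ℂ) = 0 := by
    rw [Complex.ofReal_sum, Finset.mul_sum]
    rw [← h2]
    refine Finset.sum_congr rfl fun ε _ => ?_
    rw [Complex.ofReal_sum, Finset.mul_sum]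
    exact Finset.sum_congr rfl fun a _ => h1 ε a
  have h5 := (mul_eq_zero.1 h4).resolve_left hQ
  exact_mod_cast h5

end S8

end

end PL
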