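import Pool.Agent.Helper93.PL.St

/-! Module Uni of helper93's project PL. -/

set_option autoImplicit false

namespace Pool.Agent.Helper32.PL

open Finset
open Pool.Agent.Helper61.PV
open Pool.Agent.Helper93.PL

theorem Nz_mod {d : ℕ} (F : Fin (d + 1) → ℤ) (p a : ℕ) (h : p ∣ a) :
    Nz (fun i => F i % (a : ℤ)) p = Nz F p := by
  unfold Nz
  congr 1
  apply Finset.filter_congr
  intro r _
  have h1 : (p : ℤ) ∣ ev (fun i => F i % (a : ℤ)) r - ev F r := by
    have h2 : ev (fun i => F i % (a : ℤ)) r - ev F r = ∑ i, (F i % (a : ℤ) - F i) * (r : ℤ) ^ (i : ℕ) := by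
      unfold ev
      rw [← Finset.sum_sub_distrib]
      exact Finset.sum_congr rfl (fun i _ => by ring)
    rw [h2]
    refine Finset.dvd_sum (fun i _ => Dvd.dvd.mul_right ?_ _)
    have h3 : (a : ℤ) ∣ F i % (a : ℤ) - F i := by
      have := Int.emod_add_mul_ediv (F i) a
      exact ⟨-(F i / a), by linarith⟩
    exact (Int.natCast_dvd_natCast.2 h).trans h3
  constructor
  · intro h4
    have := dvd_sub h4 h1
    simpa using this
  · intro h4
    have := dvd_add h1 h4
    simpa using this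

theorem Nz_le {d : ℕ} (F : Fin (d + 1) → ℤ) (p : ℕ) : Nz F p ≤ p := by
  unfold Nz
  refine (Finset.card_filter_le _ _).trans ?_
  simp

theorem step1 (hCrp : StCrp) (d : ℕ) (g : ℕ → ℕ → ℝ) (s : Finset ℕ) (hs : ∀ p ∈ s, p.Prime) :
    ∑ F ∈ Fintype.piFinset (fun _ : Fin (d + 1) => Ico (0 : ℤ) ((∏ p ∈ s, p : ℕ) : ℤ)),
      ∏ p ∈ s, g p (Nz F p) =
    ∏ p ∈ s, ∑ F ∈ Fintype.piFinset (fun _ : Fin (d + 1) => Ico (0 : ℤ) p), g p (Nz F p) := by
  classical
  induction s using Finset.induction_on with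
  | empty => simp
  | insert q s hq ih =>
    have hqp : q.Prime := hs q (Finset.mem_insert_self _ _)
    have hs' : ∀ p ∈ s, p.Prime := fun p hp => hs p (Finset.mem_insert_of_mem hp)
    have hb : 1 ≤ ∏ p ∈ s, p := Finset.prod_pos (fun p hp => (hs' p hp).pos)
    have hc : Nat.Coprime q (∏ p ∈ s, p) := by
      refine Nat.Coprime.prod_right (fun p hp => ?_)
      rw [Nat.coprime_primes hqp (hs' p hp)]
      rintro rfl
      exact hq hp
    have h := hCrp d q (∏ p ∈ s, p) hqp.one_le hb hc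
      (fun F₁ F₂ => g q (Nz F₁ q) * ∏ p ∈ s, g p (Nz F₂ p))
    have h1 : ∀ F : Fin (d + 1) → ℤ, g q (Nz (fun i => F i % (q : ℤ)) q) *
        ∏ p ∈ s, g p (Nz (fun i => F i % ((∏ p ∈ s, p : ℕ) : ℤ)) p) = ∏ p ∈ insert q s, g p (Nz F p) := by
      intro F
      rw [Finset.prod_insert hq, Nz_mod F q q (dvd_refl q)]
      congr 1
      refine Finset.prod_congr rfl (fun p hp => ?_)
      rw [Nz_mod F p _ (Finset.dvd_prod_of_mem _ hp)]
    simp only [h1] at h
    rw [Finset.prod_insert hq, h, Finset.prod_insert hq, ← ih hs', Finset.sum_mul]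
    refine Finset.sum_congr rfl (fun F₁ _ => ?_)
    rw [Finset.mul_sum]

theorem prim_eq (w : ℕ) : primorial w = ∏ p ∈ Pw w, p := by
  unfold primorial Pw
  refine Finset.prod_congr ?_ (fun _ _ => rfl)
  ext p
  simp only [Finset.mem_filter, Finset.mem_range, Finset.mem_Icc]
  constructor
  · rintro ⟨h1, h2⟩
    exact ⟨⟨h2.one_le, by omega⟩, h2⟩
  · rintro ⟨⟨h1, h2⟩, h3⟩
    exact ⟨by omega, h3⟩

theorem hUni (hUn1 : StUn1) (hCrp : StCrp) : Pool.Agent.Helper93.PL.StUni := by
  classical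
  intro w d hw G
  have hpr : ∀ p ∈ Pw w, p.Prime := fun p hp => (Finset.mem_filter.1 hp).2
  have hpw : ∀ p ∈ Pw w, p ≤ d + 1 := fun p hp =>
    (Finset.mem_Icc.1 (Finset.mem_filter.1 hp).1).2.trans hw
  -- indicator sums
  have key : ∀ n ∈ Fintype.piFinset (fun p : Pw w => range (p.1 + 1)),
      ∑ F ∈ Fintype.piFinset (fun _ : Fin (d + 1) => Ico (0 : ℤ) (primorial w)),
        ∏ p : Pw w, (if Nz F p.1 = n p then (1 : ℝ) else 0)
      = ((primorial w : ℕ) : ℝ) ^ (d + 1) * ∏ p : Pw w, bw p.1 (n p) := by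
    intro n hn
    obtain ⟨nn, hnn⟩ : ∃ nn : ℕ → ℕ, ∀ p : Pw w, nn p.1 = n p :=
      ⟨fun p => if h : p ∈ Pw w then n ⟨p, h⟩ else 0, fun p => by
        simp⟩
    have hle : ∀ p ∈ Pw w, nn p ∈ range (p + 1) := fun p hp => by
      have := Fintype.mem_piFinset.1 hn ⟨p, hp⟩
      rw [hnn ⟨p, hp⟩]
      exact this
    have e1 : ∀ F : Fin (d + 1) → ℤ, ∏ p : Pw w, (if Nz F p.1 = n p then (1 : ℝ) else 0)
        = ∏ p ∈ Pw w, (if Nz F p = nn p then (1 : ℝ) else 0) := by
      intro F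
      rw [← Finset.prod_coe_sort (Pw w) (fun p => if Nz F p = nn p then (1 : ℝ) else 0)]
      exact Finset.prod_congr rfl (fun p _ => by rw [hnn p])
    have e2 : ∏ p : Pw w, bw p.1 (n p) = ∏ p ∈ Pw w, bw p (nn p) := by
      rw [← Finset.prod_coe_sort (Pw w) (fun p => bw p (nn p))]
      exact Finset.prod_congr rfl (fun p _ => by rw [hnn p])
    simp only [e1]
    rw [e2, prim_eq, step1 hCrp d (fun p m => if m = nn p then (1 : ℝ) else 0) (Pw w) hpr]
    push_cast
    rw [← Finset.prod_pow, ← Finset.prod_mul_distrib]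
    refine Finset.prod_congr rfl (fun p hp => ?_)
    rw [hUn1 p d (hpr p hp) (hpw p hp) (fun m => if m = nn p then (1 : ℝ) else 0)]
    congr 1
    rw [Finset.sum_eq_single (nn p)]
    · simp
    · intro b _ hb
      rw [if_neg hb, mul_zero]
    · intro h
      exact absurd (hle p hp) h
  have hG : ∀ F : Fin (d + 1) → ℤ, G (fun p : Pw w => Nz F p.1) =
      ∑ n ∈ Fintype.piFinset (fun p : Pw w => range (p.1 + 1)),
        (∏ p : Pw w, (if Nz F p.1 = n p then (1 : ℝ) else 0)) * G n := by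
    intro F
    rw [Finset.sum_eq_single (fun p : Pw w => Nz F p.1)]
    · simp
    · intro n _ hn
      have : ∃ p : Pw w, Nz F p.1 ≠ n p := by
        by_contra hc
        push Not at hc
        exact hn (funext (fun p => (hc p).symm))
      obtain ⟨p, hp⟩ := this
      rw [Finset.prod_eq_zero (Finset.mem_univ p) (if_neg hp), zero_mul]
    · intro h
      exfalso
      apply h
      rw [Fintype.mem_piFinset]
      intro p
      rw [Finset.mem_range]
      exact Nat.lt_succ_of_le (Nz_le F p.1)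
  simp only [hG]
  rw [Finset.sum_comm, Finset.mul_sum]
  refine Finset.sum_congr rfl (fun n hn => ?_)
  rw [← Finset.sum_mul, key n hn]
  ring

end Pool.Agent.Helper32.PL
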